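import Pool.Agent.MP_5f72fe_nt.H3.SpecC

/-! Expansions at the cusp and modular forms of level one. -/

namespace Pool.Agent.MP_5f72fe_nt.H20

open Pool.Agent.MP_5f72fe_nt.H3
open Complex Filter Topology
open scoped Real MatrixGroups UpperHalfPlane ModularForm

theorem E_zero : E 0 = 1 := by simp [E]

theorem E_diff : Differentiable ℂ E := by
  unfold E
  fun_prop

theorem ev_pos : ∀ᶠ τ : ℂ in comap Complex.im atTop, 0 < τ.im :=
  preimage_mem_comap (Ioi_mem_atTop 0)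

instance : (comap Complex.im atTop).NeBot := by
  refine comap_neBot_iff_frequently.mpr (Eventually.frequently (Eventually.of_forall fun t => ?_))
  exact ⟨t * I, by simp⟩

theorem holCongr {F G : ℂ → ℂ} (h : ∀ τ : ℂ, 0 < τ.im → F τ = G τ) (hF : Hol1 F) : Hol1 G := by
  obtain ⟨h1, h2, C, Y, h3⟩ := hF
  refine ⟨h1.congr fun τ hτ => (h τ hτ).symm, fun τ hτ => ?_, C, max Y 1, fun τ hτ => ?_⟩
  · rw [← h τ hτ, ← h _ (by simpa using hτ), h2 τ hτ]
  · rw [← h τ (lt_of_lt_of_le one_pos ((le_max_right _ _).trans hτ))]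
    exact h3 τ ((le_max_left _ _).trans hτ)

theorem holAdd {F G : ℂ → ℂ} (x y : ℂ) (hF : Hol1 F) (hG : Hol1 G) :
    Hol1 fun τ => x * F τ + y * G τ := by
  obtain ⟨h1, h2, C, Y, h3⟩ := hF
  obtain ⟨g1, g2, D, Z, g3⟩ := hG
  refine ⟨(h1.const_mul x).add (g1.const_mul y), fun τ hτ => by simp only [h2 τ hτ, g2 τ hτ],
    ‖x‖ * C + ‖y‖ * D, max Y Z, fun τ hτ => (norm_add_le _ _).trans ?_⟩
  rw [norm_mul, norm_mul]
  exact add_le_add (mul_le_mul_of_nonneg_left (h3 τ ((le_max_left _ _).trans hτ)) (norm_nonneg _))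
    (mul_le_mul_of_nonneg_left (g3 τ ((le_max_right _ _).trans hτ)) (norm_nonneg _))

theorem holMul {F G : ℂ → ℂ} (hF : Hol1 F) (hG : Hol1 G) : Hol1 fun τ => F τ * G τ := by
  obtain ⟨h1, h2, C, Y, h3⟩ := hF
  obtain ⟨g1, g2, D, Z, g3⟩ := hG
  refine ⟨h1.mul g1, fun τ hτ => by simp only [h2 τ hτ, g2 τ hτ], C * D, max Y Z, fun τ hτ => ?_⟩
  have a := h3 τ ((le_max_left _ _).trans hτ)
  rw [norm_mul]
  exact mul_le_mul a (g3 τ ((le_max_right _ _).trans hτ)) (norm_nonneg _)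
    ((norm_nonneg _).trans a)

theorem holInv {G : ℂ → ℂ} {l : ℂ} (hG : Hol1 G) (hl : Tendsto G (comap Complex.im atTop) (𝓝 l))
    (h0 : l ≠ 0) (hne : ∀ τ : ℂ, 0 < τ.im → G τ ≠ 0) : Hol1 fun τ => (G τ)⁻¹ := by
  obtain ⟨g1, g2, -⟩ := hG
  refine ⟨g1.inv hne, fun τ hτ => by simp only [g2 τ hτ], ?_⟩
  have h1 := ((hl.inv₀ h0).norm.eventually (gt_mem_nhds (lt_add_one _)))
  obtain ⟨Y, hY⟩ := eventually_atTop.1 (eventually_comap.1 h1)
  exact ⟨_, Y, fun τ hτ => (hY _ hτ τ rfl).le⟩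

theorem holE (J : RowJH) (n : ℕ) : Hol1 fun τ => E (n * τ) := by
  refine ⟨(E_diff.comp (by fun_prop)).differentiableOn, fun τ _ => ?_, 1, 0, fun τ hτ => ?_⟩
  · have := J.int n
    rw [Int.cast_natCast] at this
    simp only [mul_add, mul_one, J.add, this]
  · rw [J.norm, Real.exp_le_one_iff, neg_nonpos]
    have : ((n : ℂ) * τ).im = n * τ.im := by simp
    rw [this]
    positivity

theorem holSer (S : RowSER1) {G : ℂ → ℂ} (hG : Hol1 G) : ∃ c : ℕ → ℂ, Sm c ∧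
    (∀ τ : ℂ, 0 < τ.im → G τ = ser 1 c τ) ∧ Tendsto G (comap Complex.im atTop) (𝓝 (c 0)) := by
  obtain ⟨c, h1, h2, h3⟩ := S.toSer 1 0 G one_pos (holCongr (fun τ _ => by simp [E_zero]) hG)
  refine ⟨c, h1, h3, ?_⟩
  refine Tendsto.congr' ?_ (S.ex 1 0 c one_pos h1 h2).2
  filter_upwards [ev_pos] with τ hτ
  simp [E_zero, h3 τ hτ]

theorem slashS {w : ℤ} {F : ℂ → ℂ} (h : ∀ τ : ℂ, 0 < τ.im → F (-1 / τ) = τ ^ w * F τ) :
    (fun z : ℍ => F z) ∣[w] ModularGroup.S = fun z : ℍ => F z := by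
  ext z
  rw [SlashInvariantForm.slash_S_apply]
  have h1 : (-(z : ℂ))⁻¹ = -1 / z := by rw [inv_neg, neg_div, one_div]
  have h2 := zpow_ne_zero w z.ne_zero
  change F (-(z : ℂ))⁻¹ * _ = _
  rw [h1, h z z.2, zpow_neg]
  field_simp

theorem slashT {w : ℤ} {F : ℂ → ℂ} (h : ∀ τ : ℂ, 0 < τ.im → F (τ + 1) = F τ) :
    (fun z : ℍ => F z) ∣[w] ModularGroup.T = fun z : ℍ => F z := by
  ext z
  rw [ModularForm.SL_slash_apply, UpperHalfPlane.modular_T_smul]
  have h1 : UpperHalfPlane.denom ModularGroup.T z = 1 := by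
    rw [ModularGroup.denom_apply]
    simp [ModularGroup.T]
  rw [h1, one_zpow, mul_one, UpperHalfPlane.coe_vadd, add_comm]
  exact h z z.2

theorem mdiff {F : ℂ → ℂ} (h : DifferentiableOn ℂ F {τ | 0 < τ.im}) :
    DifferentiableOn ℂ ((fun z : ℍ => F z) ∘ UpperHalfPlane.ofComplex) {z | 0 < z.im} :=
  h.congr fun z hz => by simp [UpperHalfPlane.ofComplex_apply_of_im_pos hz]

theorem qpow (z : ℂ) (m : ℕ) : Function.Periodic.qParam 1 z ^ m = E (m * z / (1 : ℕ)) := by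
  rw [Function.Periodic.qParam, E, ← Complex.exp_nat_mul]
  congr 1
  push_cast
  ring

theorem mfAll {Φ : Type} [FunLike Φ ℍ ℂ] {w : ℤ} [ModularFormClass Φ 𝒮ℒ w] (f : Φ) :
    Sm (aF f) ∧ (∀ z : ℍ, f z = ser 1 (aF f) z) ∧
      ∀ τ : ℂ, 0 < τ.im → ser 1 (aF f) (-1 / τ) = τ ^ w * ser 1 (aF f) τ := by
  have : Fact (IsCusp OnePoint.infty 𝒮ℒ) :=
    ⟨(𝒮ℒ).isCusp_of_mem_strictPeriods one_pos one_mem_strictPeriods_SL⟩
  have h2 : ∀ z : ℍ, f z = ser 1 (aF f) z := fun z => by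
    rw [← (ModularForm.hasSum_qExpansion f one_pos one_mem_strictPeriods_SL z).tsum_eq, ser]
    exact tsum_congr fun m => by rw [qpow, aF]
  refine ⟨fun r h0 h1 => ?_, h2, fun τ hτ => ?_⟩
  · have h3 := (UpperHalfPlane.hasSum_qExpansion_of_norm_lt (q := (r : ℂ)) one_pos
      (SlashInvariantFormClass.periodic_comp_ofComplex f one_mem_strictPeriods_SL)
      (ModularFormClass.holo f) (ModularFormClass.bdd_at_infty f)
      (by rwa [Complex.norm_real, Real.norm_of_nonneg h0])).summable.norm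
    refine h3.congr fun n => ?_
    rw [norm_smul, norm_pow, Complex.norm_real, Real.norm_of_nonneg h0, aF]
  · have h3 := congrFun (SlashInvariantForm.slash_action_eqn f
      (ModularGroup.S : SL(2, ℤ)) ⟨ModularGroup.S, rfl⟩) ⟨τ, hτ⟩
    rw [← ModularForm.SL_slash, SlashInvariantForm.slash_S_apply, h2, h2] at h3
    have h1 : (-τ)⁻¹ = -1 / τ := by rw [inv_neg, neg_div, one_div]
    have h0 : τ ≠ 0 := fun h => by simp [h] at hτ
    have h4 := zpow_ne_zero w h0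
    change ser 1 (aF f) (-τ)⁻¹ * τ ^ (-w) = ser 1 (aF f) τ at h3
    rw [← h3, h1, zpow_neg]
    field_simp

theorem rowSER2 : OfSER2 := by
  intro J S
  have hE : ∀ (F : ℂ → ℂ), Ex 1 F → Hol1 F ∧ Tendsto F (comap Complex.im atTop) (𝓝 0) := by
    intro F hF
    have h1 : ∀ τ : ℂ, F τ * E (-(((1 : ℝ) : ℂ) * τ)) * E ((1 : ℕ) * τ) = F τ := fun τ => by
      rw [mul_assoc, ← J.add]
      simp [E_zero]
    refine ⟨holCongr (fun τ _ => h1 τ) (holMul hF (holE J 1)), ?_⟩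
    obtain ⟨c, -, -, h2⟩ := holSer S hF
    have h3 : Tendsto (fun τ : ℂ => E ((1 : ℕ) * τ)) (comap Complex.im atTop) (𝓝 0) := by
      rw [tendsto_zero_iff_norm_tendsto_zero]
      simp only [J.norm, Nat.cast_one, one_mul]
      exact Real.tendsto_exp_neg_atTop_nhds_zero.comp
        (Tendsto.const_mul_atTop (by positivity) tendsto_comap)
    have h4 := h2.mul h3
    rw [mul_zero] at h4
    exact h4.congr h1
  refine ⟨fun ρ F G x y hF hG => holCongr (fun τ _ => by ring) (holAdd x y hF hG),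
    fun ρ σ F G hF hG => holCongr (fun τ _ => ?_) (holMul hF hG),
    fun ρ σ F G l hF hG hl h0 hne => holCongr (fun τ hτ => ?_)
      (holMul hF (holInv hG hl h0 fun τ hτ => mul_ne_zero (hne τ hτ) (J.ne _))),
    fun ρ F n hF => holCongr (fun τ _ => ?_) (holMul hF (holE J n)),
    fun ρ F hF hl => ?_, fun ρ F hF => ?_, fun ρ F t l ht hF hl => ?_,
    fun ρ F G h hF => holCongr (fun τ hτ => by simp only [h τ hτ]) hF,
    fun ρ σ F G l m hl hm => (hl.mul hm).congr fun τ => ?_,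
    fun w F hF h => ?_, fun w F hF h => ?_, fun w f => mfAll f,
    fun w f => ⟨(mfAll f).1, CuspFormClass.qExpansion_coeff_zero f one_pos one_mem_strictPeriods_SL,
      (mfAll f).2⟩, fun w => ?_⟩
  · rw [mul_mul_mul_comm, ← J.add]
    congr 2
    push_cast
    ring
  · have h1 : E (-((ρ : ℂ) * τ)) = E (-(((ρ - σ : ℝ) : ℂ) * τ)) * E (-((σ : ℂ) * τ)) := by
      rw [← J.add]
      congr 1
      push_cast
      ring
    have h2 := J.ne (-((σ : ℂ) * τ))
    have h3 := hne τ hτ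
    rw [h1]
    generalize E (-((σ : ℂ) * τ)) = e at h2 ⊢
    generalize E (-(((ρ - σ : ℝ) : ℂ) * τ)) = e'
    field_simp
  · rw [mul_assoc, ← J.add]
    congr 2
    push_cast
    ring
  · obtain ⟨c, h1, h2, h3⟩ := holSer S hF
    have h4 : c 0 = 0 := tendsto_nhds_unique h3 hl
    refine holCongr (fun τ hτ => ?_) (S.ex 1 1 c one_pos h1 fun n hn => ⟨n - 1, ?_⟩).1
    · rw [← h2 τ hτ, mul_assoc, ← J.add]
      congr 2
      push_cast
      ring
    · have : n ≠ 0 := fun h => hn (h ▸ h4)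
      omega
  · obtain ⟨c, -, -, h3⟩ := holSer S hF
    exact ⟨_, h3⟩
  · have ht0 : (0 : ℝ) < t := by exact_mod_cast ht
    have him : ∀ τ : ℂ, ((t : ℂ) * τ).im = t * τ.im := fun τ => by simp
    have h0 : ∀ τ : ℂ, F (t * τ) * E (-((ρ : ℂ) * (t * τ))) =
        F (t * τ) * E (-(((t * ρ : ℝ) : ℂ) * τ)) := fun τ => by
      congr 2
      push_cast
      ring
    obtain ⟨h1, h2, C, Y, h3⟩ := hF
    refine ⟨holCongr (fun τ _ => h0 τ) ⟨?_, fun τ hτ => ?_, C, max Y 0, fun τ hτ => ?_⟩, ?_⟩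
    · exact h1.comp (f := fun τ : ℂ => (t : ℂ) * τ) (by fun_prop) fun τ hτ => by
        change 0 < ((t : ℂ) * τ).im
        rw [him]
        exact mul_pos ht0 hτ
    · have h4 : ∀ (n : ℕ) (σ : ℂ), 0 < σ.im → F (σ + n) * E (-((ρ : ℂ) * (σ + n))) =
          F σ * E (-((ρ : ℂ) * σ)) := fun n σ hσ => by
        induction n with
        | zero => simp
        | succ n ih =>
          rw [← ih, Nat.cast_succ, ← add_assoc]
          exact h2 _ (by simpa using hσ)
      beta_reduce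
      rw [mul_add, mul_one]
      exact h4 t _ (by rw [him]; exact mul_pos ht0 hτ)
    · refine h3 _ ?_
      have h5 : (1 : ℝ) ≤ t := by exact_mod_cast ht
      have h6 := (le_max_left _ _).trans hτ
      have h7 := (le_max_right _ _).trans hτ
      rw [him]
      nlinarith
    · refine Tendsto.congr h0 (hl.comp (f := fun τ : ℂ => (t : ℂ) * τ) ?_)
      rw [tendsto_comap_iff]
      exact (Tendsto.const_mul_atTop ht0 tendsto_comap).congr fun τ => (him τ).symm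
  · rw [mul_mul_mul_comm, ← J.add]
    congr 2
    push_cast
    ring
  · have h1 := SlashInvariantForm.slash_action_generators_SL2Z (slashS h) (slashT hF.2.1)
    refine ⟨⟨⟨fun z => F z, fun _ ⟨γ, hγ⟩ => hγ ▸ h1 γ⟩,
      UpperHalfPlane.mdifferentiable_iff.2 (mdiff hF.1), fun {c} hc => ?_⟩, fun _ => rfl⟩
    rw [OnePoint.isBoundedAt_iff_forall_SL2Z hc]
    intro γ _
    obtain ⟨C, Y, h2⟩ := hF.2.2
    change UpperHalfPlane.IsBoundedAtImInfty ((fun z : ℍ => F z) ∣[w] γ)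
    rw [h1 γ]
    exact UpperHalfPlane.isBoundedAtImInfty_iff.2 ⟨C, Y, fun z hz => h2 z hz⟩
  · obtain ⟨hF, h0⟩ := hE F hF
    have h1 := SlashInvariantForm.slash_action_generators_SL2Z (slashS h) (slashT hF.2.1)
    refine ⟨⟨⟨fun z => F z, fun _ ⟨γ, hγ⟩ => hγ ▸ h1 γ⟩,
      UpperHalfPlane.mdifferentiable_iff.2 (mdiff hF.1), fun {c} hc => ?_⟩, fun _ => rfl⟩
    rw [OnePoint.isZeroAt_iff_forall_SL2Z hc]
    intro γ _
    change UpperHalfPlane.IsZeroAtImInfty ((fun z : ℍ => F z) ∣[w] γ)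
    rw [h1 γ]
    exact h0.comp UpperHalfPlane.tendsto_coe_atImInfty
  · refine ⟨⟨⟨fun f => aF f, fun f g => funext fun n => ?_⟩, fun a f => funext fun n => ?_⟩,
      fun f g h => ?_, fun _ => rfl⟩
    · have h1 := ModularForm.qExpansion_add one_pos one_mem_strictPeriods_SL f g
      exact (congrArg (PowerSeries.coeff n) h1).trans (map_add _ _ _)
    · have h1 := ModularForm.qExpansion_smul one_pos one_mem_strictPeriods_SL a f
      exact (congrArg (PowerSeries.coeff n) h1).trans (PowerSeries.coeff_smul _ _ _)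
    · ext z
      have h1 : aF f = aF g := h
      rw [(mfAll f).2.1 z, (mfAll g).2.1 z, h1]

end Pool.Agent.MP_5f72fe_nt.H20
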